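import Mathlib

/-!
Global dimension, the poset of conjugacy classes of subgroups, the orbit category and rational
coefficient systems.
-/

open CategoryTheory

namespace IncCoef

universe v u

/-- The global dimension of an abelian category. -/
noncomputable def gldim (C : Type u) [Category.{v} C] [Abelian C] : WithBot ℕ∞ :=
  ⨆ X : C, projectiveDimension X

section SubCl

variable (G : Type) [Group G]

/-- Conjugacy of subgroups. -/
def conjSetoid : Setoid (Subgroup G) where
  r H K := ∃ g : G, H = K.map (MulAut.conj g).toMonoidHom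
  iseqv := by
    refine ⟨fun H => ⟨1, ?_⟩, ?_, ?_⟩
    · ext x
      simp [Subgroup.mem_map]
    · rintro H K ⟨g, rfl⟩
      refine ⟨g⁻¹, ?_⟩
      ext x
      simp only [Subgroup.mem_map, MulEquiv.coe_toMonoidHom, MulAut.conj_apply]
      constructor
      · intro hx
        exact ⟨g * x * g⁻¹, ⟨x, hx, rfl⟩, by group⟩
      · rintro ⟨_, ⟨y, hy, rfl⟩, rfl⟩
        have : g⁻¹ * (g * y * g⁻¹) * g⁻¹⁻¹ = y := by group
        rw [this]; exact hy
    · rintro H K L ⟨g, rfl⟩ ⟨k, rfl⟩
      refine ⟨g * k, ?_⟩
      ext x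
      simp only [Subgroup.mem_map, MulEquiv.coe_toMonoidHom, MulAut.conj_apply]
      constructor
      · rintro ⟨_, ⟨y, hy, rfl⟩, rfl⟩
        exact ⟨y, hy, by group⟩
      · rintro ⟨y, hy, rfl⟩
        exact ⟨_, ⟨y, hy, rfl⟩, by group⟩

/-- The set `Sub_G/G` of conjugacy classes of subgroups of `G`. -/
def SubCl : Type := Quotient (conjSetoid G)

variable {G}

/-- The class of a subgroup. -/
def SubCl.mk (H : Subgroup G) : SubCl G := Quotient.mk (conjSetoid G) H

/-- `H` is contained in a conjugate of `K`. -/
def SubConj (H K : Subgroup G) : Prop := ∃ g : G, H ≤ K.map (MulAut.conj g).toMonoidHom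

theorem subConj_iff {H K : Subgroup G} : SubConj H K ↔ ∃ g : G, ∀ x ∈ H, g⁻¹ * x * g ∈ K := by
  constructor
  · rintro ⟨g, hg⟩
    refine ⟨g, fun x hx => ?_⟩
    obtain ⟨y, hy, hyx⟩ := hg hx
    have : x = g * y * g⁻¹ := hyx.symm
    rw [this]
    have : g⁻¹ * (g * y * g⁻¹) * g = y := by group
    rw [this]; exact hy
  · rintro ⟨g, hg⟩
    refine ⟨g, fun x hx => ⟨g⁻¹ * x * g, hg x hx, ?_⟩⟩
    show g * (g⁻¹ * x * g) * g⁻¹ = x
    group

theorem SubConj.refl (H : Subgroup G) : SubConj H H :=
  subConj_iff.2 ⟨1, fun x hx => by simpa using hx⟩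

theorem SubConj.trans {H K L : Subgroup G} (h : SubConj H K) (h' : SubConj K L) : SubConj H L := by
  rw [subConj_iff] at *
  obtain ⟨g, hg⟩ := h
  obtain ⟨k, hk⟩ := h'
  refine ⟨g * k, fun x hx => ?_⟩
  have := hk _ (hg x hx)
  have e : (g * k)⁻¹ * x * (g * k) = k⁻¹ * (g⁻¹ * x * g) * k := by group
  rw [e]; exact this

theorem SubConj.of_rel {H K : Subgroup G} (h : (conjSetoid G).r H K) : SubConj H K := by
  obtain ⟨g, hg⟩ := h
  exact ⟨g, hg.le⟩

theorem SubConj.antisymm [Finite G] {H K : Subgroup G} (h : SubConj H K) (h' : SubConj K H) :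
    (conjSetoid G).r H K := by
  obtain ⟨g, hg⟩ := h
  obtain ⟨k, hk⟩ := h'
  refine ⟨g, ?_⟩
  refine Subgroup.eq_of_le_of_card_ge hg ?_
  have h1 : Nat.card (K.map (MulAut.conj g).toMonoidHom) = Nat.card K :=
    (Nat.card_congr (K.equivMapOfInjective _ (MulAut.conj g).injective).toEquiv).symm
  have h2 : Nat.card (H.map (MulAut.conj k).toMonoidHom) = Nat.card H :=
    (Nat.card_congr (H.equivMapOfInjective _ (MulAut.conj k).injective).toEquiv).symm
  rw [h1, ← h2]
  exact Subgroup.card_le_of_le hk

/-- `(H) ≤ (K)` if and only if `H ≤ g K g⁻¹` for some `g`. -/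
instance [Finite G] : PartialOrder (SubCl G) where
  le a b := Quotient.liftOn₂ a b SubConj (fun H K H' K' h h' => propext
    ⟨fun k => (SubConj.of_rel ((conjSetoid G).symm h)).trans (k.trans (SubConj.of_rel h')),
      fun k => (SubConj.of_rel h).trans (k.trans (SubConj.of_rel ((conjSetoid G).symm h')))⟩)
  le_refl a := by
    induction a using Quotient.inductionOn
    exact SubConj.refl _
  le_trans a b c := by
    induction a using Quotient.inductionOn
    induction b using Quotient.inductionOn
    induction c using Quotient.inductionOn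
    exact SubConj.trans
  le_antisymm a b := by
    induction a using Quotient.inductionOn
    induction b using Quotient.inductionOn
    intro h h'
    exact Quotient.sound (SubConj.antisymm h h')

theorem SubCl.mk_le_mk [Finite G] (H K : Subgroup G) : SubCl.mk H ≤ SubCl.mk K ↔ SubConj H K :=
  Iff.rfl

instance [Finite G] : Finite (SubCl G) := Quotient.finite _

noncomputable instance [Finite G] : LocallyFiniteOrder (SubCl G) := by
  classical
  exact @Fintype.toLocallyFiniteOrder (SubCl G) _ (Fintype.ofFinite _) _ _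

noncomputable instance : DecidableEq (SubCl G) := Classical.decEq _

end SubCl

section Coef

variable (G : Type) [Group G]

/-- The orbit category: an object is a subgroup `H`, standing for the transitive `G`-set `G ⧸ H`. -/
structure OrbitCat where
  /-- the subgroup -/
  H : Subgroup G

variable {G}

/-- Morphisms are the equivariant maps. -/
instance : Category (OrbitCat G) where
  Hom X Y := (G ⧸ X.H) →[G] (G ⧸ Y.H)
  id X := MulActionHom.id G
  comp f g := g.comp f

variable (G) in
/-- Rational coefficient systems. -/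
abbrev Coef : Type 1 := (OrbitCat G)ᵒᵖ ⥤ ModuleCat.{0} ℚ

end Coef

end IncCoef
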