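import Pool.Agent.R708.IC.Defs

/-!
Coefficient systems of functions on fixed points.
-/

open CategoryTheory Limits Opposite

namespace IncCoef

section FC

variable {J : Type} [Category.{0} J]

theorem fc_exact_of_ev (S : ShortComplex (J ⥤ ModuleCat.{0} ℚ))
    (h : ∀ X, (S.map ((evaluation J (ModuleCat.{0} ℚ)).obj X)).Exact) : S.Exact := by
  rw [S.exact_iff_isZero_homology, Functor.isZero_iff]
  intro X
  have := (ShortComplex.exact_iff_isZero_homology _).1 (h X)
  exact this.of_iso ((S.mapHomologyIso ((evaluation J (ModuleCat.{0} ℚ)).obj X)).symm)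

theorem fc_shortExact {F₁ F₂ F₃ : J ⥤ ModuleCat.{0} ℚ} (i : F₁ ⟶ F₂) (p : F₂ ⟶ F₃)
    (w : i ≫ p = 0) (hi : ∀ X, Function.Injective (i.app X).hom)
    (hp : ∀ X, Function.Surjective (p.app X).hom)
    (h : ∀ X y, (p.app X).hom y = 0 → ∃ x, (i.app X).hom x = y) :
    (ShortComplex.mk i p w).ShortExact := by
  have h1 : ∀ X, Mono (i.app X) := fun X => (ModuleCat.mono_iff_injective _).2 (hi X)
  have h2 : ∀ X, Epi (p.app X) := fun X => (ModuleCat.epi_iff_surjective _).2 (hp X)
  have h3 : Mono i := NatTrans.mono_of_mono_app i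
  have h4 : Epi p := NatTrans.epi_of_epi_app p
  refine ⟨fc_exact_of_ev _ fun X => ?_⟩
  rw [ShortComplex.moduleCat_exact_iff]
  exact h X

end FC

section Fun

variable {G : Type} [Group G]

/-- the points of `G ⧸ X.H` fixed by all elements of `A` -/
def Fix (A : Set G) (X : OrbitCat G) : Type := {x : G ⧸ X.H // ∀ g ∈ A, g • x = x}

/-- the underlying map -/
def omap {X Y : OrbitCat G} (φ : X ⟶ Y) : G ⧸ X.H → G ⧸ Y.H := MulActionHom.toFun φ

theorem omap_smul {X Y : OrbitCat G} (φ : X ⟶ Y) (g : G) (x : G ⧸ X.H) :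
    omap φ (g • x) = g • omap φ x := MulActionHom.map_smul' φ g x

/-- the map on fixed points -/
def fixMap (A : Set G) {X Y : OrbitCat G} (φ : X ⟶ Y) (x : Fix A X) : Fix A Y :=
  ⟨omap φ x.1, fun g hg => (omap_smul φ g x.1).symm.trans (congrArg _ (x.2 g hg))⟩

/-- functions on the points fixed by `A` which vanish at the points fixed by some element of `T` -/
def FunS (A T : Set G) (X : OrbitCat G) : Submodule ℚ (Fix A X → ℚ) where
  carrier := {f | ∀ x, (∃ g ∈ T, g • x.1 = x.1) → f x = 0}
  add_mem' {a b} ha hb x hx := by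
    show a x + b x = 0
    rw [ha x hx, hb x hx, add_zero]
  zero_mem' x _ := rfl
  smul_mem' c a ha x hx := by
    show c * a x = 0
    rw [ha x hx, mul_zero]

theorem fun_res_mem (A T : Set G) {X Y : OrbitCat G} (φ : X ⟶ Y) (f : Fix A Y → ℚ)
    (hf : f ∈ FunS A T Y) : LinearMap.funLeft ℚ ℚ (fixMap A φ) f ∈ FunS A T X := by
  rintro x ⟨g, hg, hgx⟩
  refine hf _ ⟨g, hg, ?_⟩
  exact (omap_smul φ g x.1).symm.trans (congrArg _ hgx)

/-- the coefficient system of functions on fixed points -/
def FunC (A T : Set G) : Coef G where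
  obj X := ModuleCat.of ℚ (FunS A T X.unop)
  map φ := ModuleCat.ofHom ((LinearMap.funLeft ℚ ℚ (fixMap A φ.unop)).restrict
    (fun_res_mem A T φ.unop))
  map_id X := by
    apply ModuleCat.hom_ext
    apply LinearMap.ext
    intro f
    rfl
  map_comp f g := by
    apply ModuleCat.hom_ext
    apply LinearMap.ext
    intro f
    rfl

/-- the inclusion -/
def FunC.incl (A : Set G) {T T' : Set G} (h : T ⊆ T') : FunC A T' ⟶ FunC A T where
  app X := ModuleCat.ofHom (Submodule.inclusion (fun f hf x ⟨g, hg, hgx⟩ =>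
    hf x ⟨g, h hg, hgx⟩))
  naturality X Y φ := by
    apply ModuleCat.hom_ext
    apply LinearMap.ext
    intro f
    rfl

/-- the inclusion of fixed points -/
def fixIncl {A A' : Set G} (h : A ⊆ A') (X : OrbitCat G) (x : Fix A' X) : Fix A X :=
  ⟨x.1, fun g hg => x.2 g (h hg)⟩

/-- the restriction -/
def FunC.res {A A' : Set G} (h : A ⊆ A') (T : Set G) : FunC A T ⟶ FunC A' T where
  app X := ModuleCat.ofHom ((LinearMap.funLeft ℚ ℚ (fixIncl h X.unop)).restrict
    (q := FunS A' T X.unop) (fun f hf x ⟨g, hg, hgx⟩ => hf _ ⟨g, hg, hgx⟩))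
  naturality X Y φ := by
    apply ModuleCat.hom_ext
    apply LinearMap.ext
    intro f
    rfl

theorem FunC.w (A T : Set G) (g : G) :
    FunC.incl A (Set.subset_insert g T) ≫ FunC.res (Set.subset_insert g A) T = 0 := by
  apply NatTrans.ext
  funext X
  apply ModuleCat.hom_ext
  apply LinearMap.ext
  intro f
  apply Subtype.ext
  funext x
  exact f.2 _ ⟨g, Set.mem_insert _ _, x.2 g (Set.mem_insert _ _)⟩

theorem FunC.shortExact (A T : Set G) (g : G) :
    (ShortComplex.mk _ _ (FunC.w A T g)).ShortExact := by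
  classical
  refine fc_shortExact _ _ _ ?_ ?_ ?_
  · intro X f f' h
    apply Subtype.ext
    exact congrArg (fun k : FunS A T X.unop => k.1) h
  · intro X f
    let f' : Fix A X.unop → ℚ := fun x => if h : g • x.1 = x.1 then
      f.1 ⟨x.1, fun g' hg' => by
        rcases Set.mem_insert_iff.1 hg' with rfl | h'
        · exact h
        · exact x.2 g' h'⟩ else 0
    refine ⟨⟨f', ?_⟩, ?_⟩
    · rintro x ⟨g', hg', hx⟩
      show (if h : g • x.1 = x.1 then _ else _) = (0 : ℚ)
      split_ifs with h
      · exact f.2 _ ⟨g', hg', hx⟩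
      · rfl
    · apply Subtype.ext
      funext x
      show f' (fixIncl _ X.unop x) = f.1 x
      show (if h : g • x.1 = x.1 then _ else _) = f.1 x
      rw [dif_pos (x.2 g (Set.mem_insert _ _))]
      rfl
  · intro X f hf
    refine ⟨⟨f.1, ?_⟩, rfl⟩
    rintro x ⟨g', hg', hx⟩
    rcases Set.mem_insert_iff.1 hg' with rfl | h'
    · have h1 := congrArg Subtype.val hf
      have h2 := congrFun h1 ⟨x.1, fun k hk => by
        rcases Set.mem_insert_iff.1 hk with rfl | h'
        · exact hx
        · exact x.2 k h'⟩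
      exact h2
    · exact f.2 x ⟨g', h', hx⟩

/-- the object `G ⧸ ⟨A⟩` -/
def clObj (A : Set G) : OrbitCat G := ⟨Subgroup.closure A⟩

/-- the base point -/
def basePt (A : Set G) : Fix A (clObj A) := ⟨((1 : G) : G ⧸ Subgroup.closure A), fun g hg => by
  show ((g * 1 : G) : G ⧸ Subgroup.closure A) = _
  rw [QuotientGroup.eq]
  simpa using Subgroup.subset_closure hg⟩

/-- the equivariant map `G ⧸ ⟨A⟩ ⟶ X` of a fixed point -/
def evPt (A : Set G) (X : OrbitCat G) (x : Fix A X) : clObj A ⟶ X where
  toFun := Quotient.lift (fun g : G => g • x.1) (by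
    intro a b hab
    have hab' : a⁻¹ * b ∈ Subgroup.closure A := QuotientGroup.leftRel_apply.1 hab
    have h1 : Subgroup.closure A ≤ MulAction.stabilizer G x.1 := by
      rw [Subgroup.closure_le]
      intro g hg
      exact x.2 g hg
    have h2 : (a⁻¹ * b) • x.1 = x.1 := h1 hab'
    show a • x.1 = b • x.1
    calc a • x.1 = a • (a⁻¹ * b) • x.1 := by rw [h2]
      _ = b • x.1 := by rw [smul_smul]; congr 1; group)
  map_smul' := by
    intro m y
    induction y using QuotientGroup.induction_on with
    | H y =>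
      show (m * y) • x.1 = m • y • x.1
      rw [smul_smul]

theorem evPt_base (A : Set G) (X : OrbitCat G) (x : Fix A X) :
    fixMap A (evPt A X x) (basePt A) = x := by
  apply Subtype.ext
  show (1 : G) • x.1 = x.1
  exact one_smul _ _

theorem evPt_comp (A : Set G) {X Y : OrbitCat G} (φ : X ⟶ Y) (x : Fix A X) :
    evPt A X x ≫ φ = evPt A Y (fixMap A φ x) := by
  apply MulActionHom.ext
  intro y
  induction y using QuotientGroup.induction_on with
  | H y =>
    exact omap_smul φ y x.1

variable (M : Coef G)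

/-- a morphism to `FunC A ∅` gives a functional -/
def toDual (A : Set G) (α : M ⟶ FunC A ∅) : M.obj (op (clObj A)) →ₗ[ℚ] ℚ :=
  (LinearMap.proj (basePt A)).comp ((Submodule.subtype _).comp (α.app (op (clObj A))).hom)

/-- a functional gives a morphism to `FunC A ∅` -/
def fromDual (A : Set G) (l : M.obj (op (clObj A)) →ₗ[ℚ] ℚ) : M ⟶ FunC A ∅ where
  app X := ModuleCat.ofHom (LinearMap.codRestrict _
    (LinearMap.pi fun x => l.comp (M.map (evPt A X.unop x).op).hom) (by
      rintro m x ⟨g, hg, _⟩
      exact absurd hg (Set.notMem_empty g)))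
  naturality X Y φ := by
    apply ModuleCat.hom_ext
    apply LinearMap.ext
    intro m
    apply Subtype.ext
    funext x
    show l ((M.map (evPt A Y.unop x).op).hom ((M.map φ).hom m)) =
      l ((M.map (evPt A X.unop (fixMap A φ.unop x)).op).hom m)
    rw [← evPt_comp, op_comp, M.map_comp]
    rfl

theorem dual_apply (A : Set G) (α : M ⟶ FunC A ∅) (X : (OrbitCat G)ᵒᵖ) (m : M.obj X)
    (x : Fix A X.unop) : ((α.app X).hom m).1 x =
      toDual M A α ((M.map (evPt A X.unop x).op).hom m) := by
  have h := congrArg (fun k => k.hom m) (α.naturality (evPt A X.unop x).op)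
  have h' : (α.app (op (clObj A))).hom ((M.map (evPt A X.unop x).op).hom m) =
    ((FunC A ∅).map (evPt A X.unop x).op).hom ((α.app X).hom m) := h
  show _ = ((α.app (op (clObj A))).hom ((M.map (evPt A X.unop x).op).hom m)).1 (basePt A)
  rw [h']
  show _ = ((α.app X).hom m).1 (fixMap A (evPt A X.unop x) (basePt A))
  rw [evPt_base]

instance injective_FunC (A : Set G) : Injective (FunC (G := G) A ∅) where
  factors {P Q} g f _ := by
    have h1 : Mono (f.app (op (clObj A))) := inferInstance
    rw [ModuleCat.mono_iff_injective] at h1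
    obtain ⟨r, hr⟩ := LinearMap.exists_leftInverse_of_injective (f.app (op (clObj A))).hom
      (LinearMap.ker_eq_bot.2 h1)
    refine ⟨fromDual Q A ((toDual P A g).comp r), ?_⟩
    apply NatTrans.ext
    funext X
    apply ModuleCat.hom_ext
    apply LinearMap.ext
    intro m
    apply Subtype.ext
    funext x
    rw [dual_apply P A g X m x]
    show (toDual P A g) (r ((Q.map (evPt A X.unop x).op).hom ((f.app X).hom m))) = _
    have h2 : (Q.map (evPt A X.unop x).op).hom ((f.app X).hom m) =
        (f.app (op (clObj A))).hom ((P.map (evPt A X.unop x).op).hom m) :=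
      (congrArg (fun k => k.hom m) (f.naturality (evPt A X.unop x).op)).symm
    rw [h2]
    congr 1
    exact LinearMap.congr_fun hr _

theorem hom_FunC_eq_zero (A : Set G) (h : IsZero (M.obj (op (clObj A)))) (α : M ⟶ FunC A ∅) :
    α = 0 := by
  apply NatTrans.ext
  funext X
  apply ModuleCat.hom_ext
  apply LinearMap.ext
  intro m
  apply Subtype.ext
  funext x
  rw [dual_apply M A α X m x]
  have : Subsingleton (M.obj (op (clObj A))) := ModuleCat.subsingleton_of_isZero h
  rw [Subsingleton.elim ((M.map (evPt A X.unop x).op).hom m) 0, map_zero]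
  rfl

end Fun

end IncCoef
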