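import Pool.Agent.R708.IC.Upper

/-!
The affine group of the field with eight elements.
-/

set_option linter.unusedSectionVars false

namespace IncCoef

section Gen

variable {G : Type} [Group G] [Finite G]

theorem SubConj.card_dvd {K H : Subgroup G} (h : SubConj K H) : Nat.card K ∣ Nat.card H := by
  obtain ⟨g, hg⟩ := h
  have h1 : Nat.card (H.map (MulAut.conj g).toMonoidHom) = Nat.card H :=
    (Nat.card_congr (H.equivMapOfInjective _ (MulAut.conj g).injective).toEquiv).symm
  rw [← h1]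
  exact Subgroup.card_dvd_of_le hg

theorem SubConj.of_card {K H : Subgroup G} (h : SubConj K H) (hc : Nat.card H ≤ Nat.card K) :
    SubConj H K := by
  obtain ⟨g, hg⟩ := h
  have h1 : Nat.card (H.map (MulAut.conj g).toMonoidHom) = Nat.card H :=
    (Nat.card_congr (H.equivMapOfInjective _ (MulAut.conj g).injective).toEquiv).symm
  have h2 : K = H.map (MulAut.conj g).toMonoidHom :=
    Subgroup.eq_of_le_of_card_ge hg (by rw [h1]; exact hc)
  exact SubConj.of_rel ((conjSetoid G).symm ⟨g, h2⟩)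

theorem mk_lt_mk {K H : Subgroup G} :
    SubCl.mk K < SubCl.mk H ↔ SubConj K H ∧ Nat.card K < Nat.card H := by
  rw [lt_iff_le_not_ge, SubCl.mk_le_mk, SubCl.mk_le_mk]
  constructor
  · rintro ⟨h1, h2⟩
    exact ⟨h1, not_le.1 (fun h3 => h2 (h1.of_card h3))⟩
  · rintro ⟨h1, h2⟩
    exact ⟨h1, fun h3 => absurd (Nat.le_of_dvd Nat.card_pos h3.card_dvd) (not_le.2 h2)⟩

theorem SubConj.bot (H : Subgroup G) : SubConj ⊥ H := subConj_iff.2 ⟨1, fun x hx => by
  rw [Subgroup.mem_bot] at hx
  rw [hx]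
  simpa using H.one_mem⟩

theorem SubConj.of_le {K H : Subgroup G} (h : K ≤ H) : SubConj K H :=
  subConj_iff.2 ⟨1, fun x hx => by simpa using h hx⟩

theorem subConj_top {H : Subgroup G} (h : SubConj ⊤ H) : H = ⊤ := by
  have := Nat.le_of_dvd Nat.card_pos h.card_dvd
  exact Subgroup.eq_top_of_le_card _ (by rwa [Subgroup.card_top] at this)

end Gen

/-- The affine group: `(a, b)` is `x ↦ a x + b`. -/
@[ext]
structure Aff (K : Type) [Field K] where
  /-- linear part -/
  a : Kˣ
  /-- translation part -/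
  b : K

section Aff

variable {K : Type} [Field K]

instance : Group (Aff K) where
  mul x y := ⟨x.a * y.a, x.a * y.b + x.b⟩
  one := ⟨1, 0⟩
  inv x := ⟨x.a⁻¹, -((x.a⁻¹ : Kˣ) * x.b)⟩
  mul_assoc x y z := by
    apply Aff.ext
    · exact mul_assoc _ _ _
    · show ((x.a * y.a : Kˣ) : K) * z.b + (x.a * y.b + x.b) = x.a * (y.a * z.b + y.b) + x.b
      push_cast; ring
  one_mul x := by
    apply Aff.ext
    · exact one_mul _
    · show ((1 : Kˣ) : K) * x.b + 0 = x.b
      simp
  mul_one x := by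
    apply Aff.ext
    · exact mul_one _
    · show (x.a : K) * 0 + x.b = x.b
      simp
  inv_mul_cancel x := by
    apply Aff.ext
    · exact inv_mul_cancel _
    · show ((x.a⁻¹ : Kˣ) : K) * x.b + -((x.a⁻¹ : Kˣ) * x.b) = 0
      ring

theorem mul_a (x y : Aff K) : (x * y).a = x.a * y.a := rfl
theorem mul_b (x y : Aff K) : (x * y).b = x.a * y.b + x.b := rfl
theorem inv_a (x : Aff K) : (x⁻¹).a = x.a⁻¹ := rfl
theorem inv_b (x : Aff K) : (x⁻¹).b = -((x.a⁻¹ : Kˣ) * x.b) := rfl
theorem one_a : (1 : Aff K).a = 1 := rfl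
theorem one_b : (1 : Aff K).b = 0 := rfl

instance [Finite K] : Finite (Aff K) :=
  Finite.of_injective (fun x : Aff K => (x.a, x.b)) (fun x y h => by
    apply Aff.ext
    · exact congrArg Prod.fst h
    · exact congrArg Prod.snd h)

/-- the linear part -/
def lin : Aff K →* Kˣ where
  toFun := Aff.a
  map_one' := rfl
  map_mul' _ _ := rfl

/-- the translations by the elements of `W` -/
def vsub (W : AddSubgroup K) : Subgroup (Aff K) where
  carrier := {x | x.a = 1 ∧ x.b ∈ W}
  mul_mem' {x y} hx hy := by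
    refine ⟨by rw [mul_a, hx.1, hy.1, one_mul], ?_⟩
    rw [mul_b, hx.1, Units.val_one, one_mul]
    exact W.add_mem hy.2 hx.2
  one_mem' := ⟨rfl, W.zero_mem⟩
  inv_mem' {x} hx := by
    refine ⟨by rw [inv_a, hx.1, inv_one], ?_⟩
    rw [inv_b, hx.1, inv_one, Units.val_one, one_mul]
    exact W.neg_mem hx.2

theorem mem_vsub {W : AddSubgroup K} {x : Aff K} : x ∈ vsub W ↔ x.a = 1 ∧ x.b ∈ W := Iff.rfl

theorem card_vsub (W : AddSubgroup K) : Nat.card (vsub W) = Nat.card W := by
  refine Nat.card_congr ⟨fun x => ⟨x.1.b, x.2.2⟩, fun w => ⟨⟨1, w.1⟩, rfl, w.2⟩, fun x => ?_,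
    fun w => rfl⟩
  apply Subtype.ext
  apply Aff.ext
  · exact x.2.1.symm
  · rfl

/-- the translation part of a subgroup -/
def tpart (H : Subgroup (Aff K)) : AddSubgroup K where
  carrier := {w | (⟨1, w⟩ : Aff K) ∈ H}
  add_mem' {v w} hv hw := by
    have := H.mul_mem hw hv
    have e : (⟨1, w⟩ : Aff K) * ⟨1, v⟩ = ⟨1, v + w⟩ := by
      apply Aff.ext
      · exact one_mul _
      · show ((1 : Kˣ) : K) * v + w = v + w
        simp
    rw [e] at this
    exact this
  zero_mem' := H.one_mem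
  neg_mem' {w} hw := by
    have := H.inv_mem hw
    have e : (⟨1, w⟩ : Aff K)⁻¹ = ⟨1, -w⟩ := by
      apply Aff.ext
      · exact inv_one
      · show -(((1 : Kˣ)⁻¹ : Kˣ) * w) = -w
        simp
    rw [e] at this
    exact this

theorem eq_vsub {H : Subgroup (Aff K)} (h : ∀ x ∈ H, x.a = 1) : H = vsub (tpart H) := by
  ext x
  constructor
  · intro hx
    refine ⟨h x hx, ?_⟩
    have : (⟨1, x.b⟩ : Aff K) = x := Aff.ext (h x hx).symm rfl
    show (⟨1, x.b⟩ : Aff K) ∈ H
    rw [this]; exact hx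
  · rintro ⟨h1, h2⟩
    have : (⟨1, x.b⟩ : Aff K) = x := Aff.ext h1.symm rfl
    rw [← this]; exact h2

theorem conj_tr (g : Aff K) (w : K) : g⁻¹ * ⟨1, w⟩ * g = ⟨1, (g.a⁻¹ : Kˣ) * w⟩ := by
  apply Aff.ext
  · show g.a⁻¹ * 1 * g.a = 1
    simp
  · show ((g.a⁻¹ * 1 : Kˣ) : K) * g.b + ((g.a⁻¹ : Kˣ) * w + -((g.a⁻¹ : Kˣ) * g.b)) =
      (g.a⁻¹ : Kˣ) * w
    rw [mul_one]; ring

/-- the homotheties -/
def hsub : Subgroup (Aff K) where
  carrier := {x | x.b = 0}
  mul_mem' {x y} hx hy := by
    show (x.a : K) * y.b + x.b = 0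
    rw [show x.b = 0 from hx, show y.b = 0 from hy]; simp
  one_mem' := rfl
  inv_mem' {x} hx := by
    show -((x.a⁻¹ : Kˣ) * x.b) = 0
    rw [show x.b = 0 from hx]; simp

theorem card_hsub : Nat.card (hsub (K := K)) = Nat.card Kˣ := by
  refine Nat.card_congr ⟨fun x => x.1.a, fun a => ⟨⟨a, 0⟩, rfl⟩, fun x => ?_, fun w => rfl⟩
  apply Subtype.ext
  apply Aff.ext
  · rfl
  · exact x.2.symm

variable [Finite K] [Algebra (ZMod 2) K] (hK : Nat.card K = 8)

include hK

theorem card_units : Nat.card Kˣ = 7 := by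
  classical
  have := Fintype.ofFinite K
  rw [Nat.card_units, hK]

/-- structure of the subgroups which are not contained in the translations -/
theorem classify (H : Subgroup (Aff K)) (h : ∃ x ∈ H, x.a ≠ 1) :
    H = ⊤ ∨ (SubConj H hsub ∧ Nat.card H = 7) := by
  have hc := card_units hK
  have hmap : H.map lin = ⊤ := by
    have hp : (Nat.card Kˣ).Prime := by rw [hc]; norm_num
    have := Fact.mk hp
    rcases Subgroup.eq_bot_or_eq_top_of_prime_card (H.map (lin (K := K))) with h1 | h1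
    · exfalso
      obtain ⟨x, hx, hxa⟩ := h
      apply hxa
      have : lin x ∈ H.map (lin (K := K)) := ⟨x, hx, rfl⟩
      rw [h1, Subgroup.mem_bot] at this
      exact this
    · exact h1
  have hsurj : ∀ a : Kˣ, ∃ b : K, (⟨a, b⟩ : Aff K) ∈ H := by
    intro a
    have : a ∈ H.map (lin (K := K)) := by rw [hmap]; trivial
    obtain ⟨x, hx, rfl⟩ := this
    exact ⟨x.b, hx⟩
  have hinv : ∀ (a : Kˣ) (w : K), w ∈ tpart H → (a : K) * w ∈ tpart H := by
    intro a w hw
    obtain ⟨b, hb⟩ := hsurj a⁻¹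
    have h1 := H.mul_mem (H.mul_mem (H.inv_mem hb) hw) hb
    have h2 := conj_tr (⟨a⁻¹, b⟩ : Aff K) w
    rw [h2] at h1
    have h3 : (⟨1, (((a⁻¹)⁻¹ : Kˣ) : K) * w⟩ : Aff K) ∈ H := h1
    rw [inv_inv] at h3
    exact h3
  by_cases hT : ∃ w ∈ tpart H, w ≠ 0
  · left
    obtain ⟨w, hw, hw0⟩ := hT
    have htop : ∀ z : K, z ∈ tpart H := by
      intro z
      by_cases hz : z = 0
      · rw [hz]; exact (tpart H).zero_mem
      · have := hinv (Units.mk0 (z / w) (div_ne_zero hz hw0)) w hw
        rw [Units.val_mk0, div_mul_cancel₀ _ hw0] at this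
        exact this
    rw [eq_top_iff]
    intro x _
    obtain ⟨b, hb⟩ := hsurj x.a
    have h1 := H.mul_mem (show (⟨1, x.b - b⟩ : Aff K) ∈ H from htop _) hb
    have h2 : (⟨1, x.b - b⟩ : Aff K) * ⟨x.a, b⟩ = x := by
      apply Aff.ext
      · exact one_mul _
      · show ((1 : Kˣ) : K) * b + (x.b - b) = x.b
        simp
    rw [h2] at h1
    exact h1
  · right
    push Not at hT
    have hker : ∀ x ∈ H, x.a = 1 → x = 1 := by
      intro x hx hxa
      have h1 : x = ⟨1, x.b⟩ := Aff.ext hxa rfl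
      have h2 : x.b ∈ tpart H := by
        show (⟨1, x.b⟩ : Aff K) ∈ H
        rw [← h1]; exact hx
      exact Aff.ext hxa (hT _ h2)
    constructor
    · obtain ⟨x₀, hx₀, ha₀⟩ := h
      have hne : (1 : K) - x₀.a ≠ 0 := by
        intro h0
        apply ha₀
        apply Units.ext
        rw [Units.val_one]
        exact (sub_eq_zero.1 h0).symm
      rw [subConj_iff]
      refine ⟨⟨1, x₀.b / (1 - x₀.a)⟩, fun x hx => ?_⟩
      have hcomm : x * x₀ = x₀ * x := by
        have h1 : (x * x₀) * (x₀ * x)⁻¹ ∈ H :=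
          H.mul_mem (H.mul_mem hx hx₀) (H.inv_mem (H.mul_mem hx₀ hx))
        have h2 := hker _ h1 (by
          show (x.a * x₀.a) * (x₀.a * x.a)⁻¹ = 1
          rw [mul_comm x.a x₀.a, mul_inv_cancel])
        exact mul_inv_eq_one.1 h2
      have hb : (x.a : K) * x₀.b + x.b = x₀.a * x.b + x₀.b := congrArg Aff.b hcomm
      show ((1 : Kˣ)⁻¹ * x.a : Kˣ) * (x₀.b / (1 - x₀.a)) + (((1 : Kˣ)⁻¹ : Kˣ) * x.b +
        -(((1 : Kˣ)⁻¹ : Kˣ) * (x₀.b / (1 - x₀.a)))) = 0
      simp only [inv_one, one_mul, Units.val_one]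
      field_simp
      linear_combination hb
    · have hinj : Function.Injective (fun x : H => lin x.1) := by
        intro x y hxy
        have h1 : x.1 * y.1⁻¹ = 1 := hker _ (H.mul_mem x.2 (H.inv_mem y.2)) (by
          have hxy' : x.1.a = y.1.a := hxy
          show x.1.a * y.1.a⁻¹ = 1
          rw [hxy', mul_inv_cancel])
        exact Subtype.ext (mul_inv_eq_one.1 h1)
      rw [← hc]
      refine Nat.card_congr (Equiv.ofBijective (fun x : H => lin x.1) ⟨hinj, fun a => ?_⟩)
      obtain ⟨b, hb⟩ := hsurj a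
      exact ⟨⟨_, hb⟩, rfl⟩

theorem finrank_eq : Module.finrank (ZMod 2) K = 3 := by
  have h := Module.natCard_eq_pow_finrank (K := ZMod 2) (V := K)
  rw [hK, Nat.card_zmod] at h
  have h2 : 2 ^ 3 = 2 ^ Module.finrank (ZMod 2) K := h
  exact (Nat.pow_right_injective le_rfl h2).symm

theorem card_cases (W : AddSubgroup K) :
    Nat.card W = 1 ∨ Nat.card W = 2 ∨ Nat.card W = 4 ∨ Nat.card W = 8 := by
  have h := AddSubgroup.card_addSubgroup_dvd_card W
  rw [hK] at h
  have h2 : Nat.card W ≤ 8 := Nat.le_of_dvd (by norm_num) h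
  interval_cases hn : Nat.card W <;> simp_all

theorem exists_functional (W : AddSubgroup K) (hW : W ≠ ⊤) :
    ∃ f : Module.Dual (ZMod 2) K, f ≠ 0 ∧ ∀ w ∈ W, f w = 0 := by
  let S : Submodule (ZMod 2) K := AddSubgroup.toZModSubmodule 2 W
  have hS : S < ⊤ := by
    rw [lt_top_iff_ne_top]
    intro h
    apply hW
    rw [eq_top_iff]
    intro x _
    have : x ∈ S := by rw [h]; trivial
    exact this
  obtain ⟨f, hf, hle⟩ := Submodule.exists_le_ker_of_lt_top S hS
  exact ⟨f, hf, fun w hw => hle hw⟩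

theorem functional_conj (f g : Module.Dual (ZMod 2) K) (hf : f ≠ 0) (hg : g ≠ 0) :
    ∃ c : Kˣ, ∀ x, g x = f (c * x) := by
  let m : K →ₗ[ZMod 2] Module.Dual (ZMod 2) K :=
    { toFun := fun c => f.comp (LinearMap.mulLeft (ZMod 2) c)
      map_add' := fun c d => by
        apply LinearMap.ext
        intro x
        show f ((c + d) * x) = f (c * x) + f (d * x)
        rw [add_mul, map_add]
      map_smul' := fun r c => by
        apply LinearMap.ext
        intro x
        show f ((r • c) * x) = r • f (c * x)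
        rw [smul_mul_assoc, map_smul] }
  have hinj : Function.Injective m := by
    rw [← LinearMap.ker_eq_bot, LinearMap.ker_eq_bot']
    intro c hc
    by_contra hc0
    apply hf
    apply LinearMap.ext
    intro x
    have := LinearMap.congr_fun hc (c⁻¹ * x)
    have h2 : f (c * (c⁻¹ * x)) = 0 := this
    rw [mul_inv_cancel_left₀ hc0] at h2
    exact h2
  have hsurj : Function.Surjective m :=
    (LinearMap.injective_iff_surjective_of_finrank_eq_finrank
      (Subspace.dual_finrank_eq (K := ZMod 2) (V := K)).symm).1 hinj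
  obtain ⟨c, hc⟩ := hsurj g
  have hc0 : c ≠ 0 := by
    rintro rfl
    apply hg
    rw [← hc, map_zero]
  exact ⟨Units.mk0 c hc0, fun x => (LinearMap.congr_fun hc x).symm⟩

/-- the key lemma: subgroups of the additive group are ordered by their order, up to homothety -/
theorem add_conj (W W' : AddSubgroup K) (h : Nat.card W ≤ Nat.card W') :
    ∃ c : Kˣ, ∀ w ∈ W, (c : K) * w ∈ W' := by
  by_cases h1 : W' = ⊤
  · exact ⟨1, fun w _ => by rw [h1]; trivial⟩
  by_cases h2 : ∀ w ∈ W, w = 0
  · exact ⟨1, fun w hw => by rw [h2 w hw, mul_zero]; exact W'.zero_mem⟩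
  push Not at h2
  obtain ⟨w₀, hw₀, hw₀'⟩ := h2
  have h8 : Nat.card W' ≠ 8 := by
    intro h8
    apply h1
    exact AddSubgroup.eq_top_of_card_eq _ (by rw [h8, hK])
  have hW1 : Nat.card W ≠ 1 := by
    intro h0
    rw [AddSubgroup.card_eq_one] at h0
    rw [h0, AddSubgroup.mem_bot] at hw₀
    exact hw₀' hw₀
  rcases card_cases hK W with h3 | h3 | h3 | h3
  · exact absurd h3 hW1
  · -- order two
    have hW : ∀ w ∈ W, w = 0 ∨ w = w₀ := by
      intro w hw
      by_contra hcon
      push Not at hcon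
      have h4 : ({0, w₀, w} : Set K) ⊆ W := by
        rintro x (rfl | rfl | rfl)
        · exact W.zero_mem
        · exact hw₀
        · exact hw
      have h5 : ({0, w₀, w} : Set K).ncard ≤ (W : Set K).ncard :=
        Set.ncard_le_ncard h4 (Set.toFinite _)
      have h6 : ({0, w₀, w} : Set K).ncard = 3 := by
        rw [Set.ncard_eq_three]
        exact ⟨0, w₀, w, hw₀'.symm, hcon.1.symm, fun h => hcon.2 h.symm, rfl⟩
      rw [h6] at h5
      have h7 : (W : Set K).ncard = Nat.card W := rfl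
      omega
    have hW' : ∃ w ∈ W', w ≠ 0 := by
      by_contra hcon
      push Not at hcon
      have h0 : W' = ⊥ := by
        rw [eq_bot_iff]
        intro x hx
        exact hcon x hx
      rw [h0, AddSubgroup.card_bot] at h
      omega
    obtain ⟨w₁, hw₁, hw₁'⟩ := hW'
    refine ⟨Units.mk0 (w₁ / w₀) (div_ne_zero hw₁' hw₀'), fun w hw => ?_⟩
    rcases hW w hw with rfl | rfl
    · rw [mul_zero]; exact W'.zero_mem
    · rw [Units.val_mk0, div_mul_cancel₀ _ hw₀']; exact hw₁
  · -- order four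
    have h4 : Nat.card W' = 4 := by
      rcases card_cases hK W' with h5 | h5 | h5 | h5 <;> omega
    have hWt : W ≠ ⊤ := by
      rintro rfl
      rw [AddSubgroup.card_top, hK] at h3
      omega
    obtain ⟨g, hg, hgW⟩ := exists_functional hK W hWt
    obtain ⟨f, hf, hfW⟩ := exists_functional hK W' h1
    obtain ⟨c, hc⟩ := functional_conj hK f g hf hg
    have hker : W' = (LinearMap.ker f).toAddSubgroup := by
      refine AddSubgroup.eq_of_le_of_card_ge (fun w hw => hfW w hw) ?_
      rcases card_cases hK (LinearMap.ker f).toAddSubgroup with h5 | h5 | h5 | h5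
      · omega
      · omega
      · omega
      · exfalso
        apply hf
        have h6 : (LinearMap.ker f).toAddSubgroup = ⊤ :=
          AddSubgroup.eq_top_of_card_eq _ (by rw [h5, hK])
        apply LinearMap.ext
        intro x
        have : x ∈ (LinearMap.ker f).toAddSubgroup := by rw [h6]; trivial
        exact this
    refine ⟨c, fun w hw => ?_⟩
    rw [hker]
    show f (c * w) = 0
    rw [← hc]
    exact hgW w hw
  · exfalso
    have := card_cases hK W'
    omega

end Aff

end IncCoef
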