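import Pool.Agent.R708.IC.Fun

/-!
The global dimension of the category of rational coefficient systems of a finite group is at least
the size of every irredundant generating set of every subgroup.
-/

open CategoryTheory Limits Opposite Abelian

namespace IncCoef

universe w

section Ext

variable {D : Type 1} [Category.{0} D] [Abelian D] [HasExt.{w} D] (M : D)

theorem ext_ker {S : ShortComplex D} (hS : S.ShortExact)
    (h2 : ∀ k, Subsingleton (Ext M S.X₂ k)) (h3 : ∀ k, Subsingleton (Ext M S.X₃ k)) (k : ℕ) :
    Subsingleton (Ext M S.X₁ k) := by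
  rcases k with _ | k
  · have := hS.mono_f
    refine ⟨fun x y => ?_⟩
    apply Ext.postcomp_mk₀_injective_of_mono M S.f
    exact (h2 0).elim _ _
  · have key : ∀ x : Ext M S.X₁ (k + 1), x = 0 := by
      intro x
      obtain ⟨x₃, hx₃⟩ := Ext.covariant_sequence_exact₁ M hS x ((h2 (k + 1)).elim _ _) rfl
      rw [← hx₃, (h3 k).elim x₃ 0, Ext.zero_comp]
    exact ⟨fun x y => by rw [key x, key y]⟩

theorem ext_step {S : ShortComplex D} (hS : S.ShortExact) (k : ℕ)
    (h2 : Subsingleton (Ext M S.X₂ k)) (h1 : Subsingleton (Ext M S.X₁ (k + 1))) :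
    Subsingleton (Ext M S.X₃ k) := by
  have key : ∀ x : Ext M S.X₃ k, x = 0 := by
    intro x
    obtain ⟨x₂, hx₂⟩ := Ext.covariant_sequence_exact₃ M hS x rfl (h1.elim _ _)
    rw [← hx₂, h2.elim x₂ 0, Ext.zero_comp]
  exact ⟨fun x y => by rw [key x, key y]⟩

end Ext

section Lower

variable {G : Type} [Group G] [DecidableEq G] [HasExt.{w} (Coef G)] (M : Coef G) (T : Finset G)
  (hM : ∀ A : Finset G, A ⊂ T → IsZero (M.obj (op (clObj (A : Set G)))))

include hM in
theorem ext_zero (B : Finset G) : ∀ A : Finset G, A ∪ B ⊂ T → ∀ k,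
    Subsingleton (Ext M (FunC (A : Set G) (B : Set G)) k) := by
  induction B using Finset.induction with
  | empty =>
    intro A hA k
    rw [Finset.union_empty] at hA
    rw [Finset.coe_empty]
    rcases k with _ | k
    · have key : ∀ x : Ext M (FunC (A : Set G) ∅) 0, x = 0 := by
        intro x
        obtain ⟨f, rfl⟩ := Ext.homEquiv₀.symm.surjective x
        rw [hom_FunC_eq_zero M (A : Set G) (hM A hA) f]
        exact Ext.mk₀_zero _ _
      exact ⟨fun x y => by rw [key x, key y]⟩
    · exact Ext.subsingleton_of_injective _ _ k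
  | insert g B hg ih =>
    intro A hA k
    rw [Finset.coe_insert]
    refine ext_ker M (FunC.shortExact (A : Set G) (B : Set G) g) (fun k => ?_) (fun k => ?_) k
    · refine ih A (lt_of_le_of_lt (Finset.union_subset_union_right (Finset.subset_insert g B)) hA) k
    · show Subsingleton (Ext M (FunC (insert g (A : Set G)) (B : Set G)) k)
      rw [← Finset.coe_insert]
      refine ih (insert g A) ?_ k
      rw [Finset.insert_union, ← Finset.union_insert]
      exact hA

include hM in
theorem ext_down (B : Finset G) : ∀ A : Finset G, Disjoint A B → A ∪ B = T →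
    Subsingleton (Ext M (FunC (A : Set G) (B : Set G)) B.card) →
    Subsingleton (Ext M (FunC (T : Set G) ∅) 0) := by
  induction B using Finset.induction with
  | empty =>
    intro A _ hAT h
    rw [Finset.union_empty] at hAT
    subst hAT
    rw [Finset.coe_empty, Finset.card_empty] at h
    exact h
  | insert g B hg ih =>
    intro A hAB hAT h
    rw [Finset.disjoint_insert_right] at hAB
    rw [Finset.coe_insert, Finset.card_insert_of_notMem hg] at h
    refine ih (insert g A) (Finset.disjoint_insert_left.2 ⟨hg, hAB.2⟩) (by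
      rw [Finset.insert_union, ← Finset.union_insert]; exact hAT) ?_
    rw [Finset.coe_insert]
    refine ext_step M (FunC.shortExact (A : Set G) (B : Set G) g) B.card ?_ h
    refine ext_zero M T hM B A ?_ _
    rw [Finset.ssubset_iff_subset_ne]
    refine ⟨?_, ?_⟩
    · rw [← hAT]
      exact Finset.union_subset_union_right (Finset.subset_insert g B)
    · intro h1
      have h2 : g ∈ A ∪ B := by
        rw [h1, ← hAT]
        exact Finset.mem_union_right _ (Finset.mem_insert_self _ _)
      rcases Finset.mem_union.1 h2 with h3 | h3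
      · exact hAB.1 h3
      · exact hg h3

include hM in
theorem not_pd_lt (f : M ⟶ FunC (T : Set G) ∅) (hf : f ≠ 0) :
    ¬ HasProjectiveDimensionLT M T.card := by
  intro h
  have h1 : Subsingleton (Ext M (FunC ((∅ : Finset G) : Set G) (T : Set G)) T.card) :=
    HasProjectiveDimensionLT.subsingleton M T.card T.card le_rfl _
  have h2 := ext_down M T hM T ∅ (Finset.disjoint_empty_left T) (Finset.empty_union T) h1
  apply hf
  apply Ext.homEquiv₀.symm.injective
  exact h2.elim _ _

end Lower

section Gen

variable {G : Type} [Group G] [Finite G]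

theorem gldim_coef_ge (T : Finset G)
    (hT : ∀ A : Finset G, A ⊂ T → Subgroup.closure (A : Set G) ≠ Subgroup.closure (T : Set G)) :
    (T.card : WithBot ℕ∞) ≤ gldim (Coef G) := by
  classical
  let _ := HasExt.standard (Coef G)
  let M : Coef G := FunC (T : Set G) ((Subgroup.closure (T : Set G) : Set G)ᶜ)
  refine le_trans ?_ (le_iSup (fun X : Coef G => projectiveDimension X) M)
  rw [projectiveDimension_ge_iff]
  have hM : ∀ A : Finset G, A ⊂ T → IsZero (M.obj (op (clObj (A : Set G)))) := by
    intro A hA
    have hle : Subgroup.closure (A : Set G) ≤ Subgroup.closure (T : Set G) :=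
      Subgroup.closure_mono (by exact_mod_cast hA.subset)
    have hE : IsEmpty (Fix (T : Set G) (clObj (A : Set G))) := by
      refine ⟨?_⟩
      rintro ⟨x, hx⟩
      induction x using QuotientGroup.induction_on with
      | H g =>
        have h1 : Subgroup.closure (T : Set G) ≤
            MulAction.stabilizer G ((g : G) : G ⧸ Subgroup.closure (A : Set G)) := by
          rw [Subgroup.closure_le]
          intro t ht
          exact hx t ht
        have h2 : SubConj (Subgroup.closure (T : Set G)) (Subgroup.closure (A : Set G)) := by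
          rw [subConj_iff]
          refine ⟨g, fun t ht => ?_⟩
          have h3 : ((t * g : G) : G ⧸ Subgroup.closure (A : Set G)) = (g : G) := h1 ht
          rw [eq_comm, QuotientGroup.eq] at h3
          rw [mul_assoc]; exact h3
        have h4 : SubConj (Subgroup.closure (A : Set G)) (Subgroup.closure (T : Set G)) :=
          subConj_iff.2 ⟨1, fun x hx => by simpa using hle hx⟩
        obtain ⟨k, hk⟩ := h2.antisymm h4
        apply hT A hA
        refine Subgroup.eq_of_le_of_card_ge hle ?_
        rw [hk, ← Nat.card_congr (Subgroup.equivMapOfInjective _ _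
          (MulAut.conj k).injective).toEquiv]
    have h5 : Subsingleton (FunS (T : Set G) ((Subgroup.closure (T : Set G) : Set G)ᶜ)
        (clObj (A : Set G))) := ⟨fun f f' => Subtype.ext (funext fun x => hE.elim x)⟩
    have h6 : Subsingleton (M.obj (op (clObj (A : Set G)))) := h5
    exact ModuleCat.isZero_of_subsingleton _
  refine not_pd_lt M T hM (FunC.incl (T : Set G) (Set.empty_subset _)) ?_
  intro h0
  let b := basePt (T : Set G)
  let f : Fix (T : Set G) (clObj (T : Set G)) → ℚ := fun x => if x.1 = b.1 then 1 else 0
  have hf : f ∈ FunS (T : Set G) ((Subgroup.closure (T : Set G) : Set G)ᶜ) (clObj (T : Set G)) := by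
    rintro x ⟨g, hg, hgx⟩
    show (if x.1 = b.1 then (1 : ℚ) else 0) = 0
    rw [if_neg]
    intro hx
    rw [hx] at hgx
    have h3 : ((g * 1 : G) : G ⧸ Subgroup.closure (T : Set G)) = ((1 : G) : _) := hgx
    rw [eq_comm, QuotientGroup.eq] at h3
    apply hg
    simpa using h3
  have h1 := congrArg (fun k : M ⟶ FunC (T : Set G) ∅ =>
    ((k.app (op (clObj (T : Set G)))).hom ⟨f, hf⟩).1 b) h0
  have h2 : f b = 0 := h1
  have h3 : f b = 1 := if_pos rfl
  rw [h2] at h3
  exact zero_ne_one h3

end Gen

end IncCoef
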