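import Pool.Agent.R708.IC.FW
import Pool.Agent.R708.IC.Defs

/-!
An upper bound for the global dimension of the incidence algebra.
-/

open CategoryTheory Limits

set_option linter.unusedSectionVars false

namespace IncCoef

section PD

variable {R : Type} [Ring R] {X Y Z : Type} [AddCommGroup X] [Module R X] [AddCommGroup Y]
  [Module R Y] [AddCommGroup Z] [Module R Z]

theorem mc_shortExact (i : X →ₗ[R] Y) (p : Y →ₗ[R] Z) (hi : Function.Injective i)
    (hp : Function.Surjective p) (h : ∀ y, p y = 0 ↔ ∃ x, i x = y) :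
    (ShortComplex.mk (ModuleCat.ofHom i) (ModuleCat.ofHom p) (by
      apply ModuleCat.hom_ext
      apply LinearMap.ext
      intro x
      exact (h _).2 ⟨x, rfl⟩)).ShortExact :=
  ModuleCat.shortComplex_shortExact _ (fun y => h y) hi hp

theorem pd_mid (i : X →ₗ[R] Y) (p : Y →ₗ[R] Z) (hi : Function.Injective i)
    (hp : Function.Surjective p) (h : ∀ y, p y = 0 ↔ ∃ x, i x = y) (n : ℕ)
    (h1 : HasProjectiveDimensionLT (ModuleCat.of R X) n)
    (h3 : HasProjectiveDimensionLT (ModuleCat.of R Z) n) :
    HasProjectiveDimensionLT (ModuleCat.of R Y) n :=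
  (mc_shortExact i p hi hp h).hasProjectiveDimensionLT_X₂ n h1 h3

theorem pd_right (i : X →ₗ[R] Y) (p : Y →ₗ[R] Z) (hi : Function.Injective i)
    (hp : Function.Surjective p) (h : ∀ y, p y = 0 ↔ ∃ x, i x = y) (n : ℕ)
    (h1 : HasProjectiveDimensionLT (ModuleCat.of R X) n)
    (h2 : HasProjectiveDimensionLT (ModuleCat.of R Y) (n + 1)) :
    HasProjectiveDimensionLT (ModuleCat.of R Z) (n + 1) :=
  (mc_shortExact i p hi hp h).hasProjectiveDimensionLT_X₃ n h1 h2

theorem pd_proj [Module.Projective R X] : HasProjectiveDimensionLT (ModuleCat.of R X) 1 := by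
  have : Projective (ModuleCat.of R X) := (IsProjective.iff_projective X).1 inferInstance
  infer_instance

theorem pd_sub [Subsingleton X] (n : ℕ) : HasProjectiveDimensionLT (ModuleCat.of R X) n := by
  have : IsZero (ModuleCat.of R X) := ModuleCat.isZero_of_subsingleton _
  have := this.hasProjectiveDimensionLT_zero
  exact hasProjectiveDimensionLT_of_ge _ 0 n (Nat.zero_le n)

end PD

section Conc

variable {P : Type} [PartialOrder P] [LocallyFiniteOrder P] [DecidableEq P] [Fintype P]
variable (N : Type) [AddCommGroup N] [Module (IA P) N] [Module ℚ N] [IsScalarTower ℚ (IA P) N]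

theorem conc_smul (x : P) (hN : ∀ n : N, E x x • n = n) (a : IA P) (n : N) :
    a • n = a x x • n := by
  calc a • n = E x x • (a • (E x x • n)) := by rw [hN, hN]
    _ = (E x x * (a * E x x)) • n := by rw [mul_smul, mul_smul]
    _ = a x x • n := by rw [E_mul_mul_E, smul_assoc, hN]

theorem pd_conc (x : P) (hN : ∀ n : N, E x x • n = n)
    (hx : HasProjectiveDimensionLT (ModuleCat.of (IA P) (FD N (Set.Iio x) (isLowerSet_Iio x))) 2) :
    HasProjectiveDimensionLT (ModuleCat.of (IA P) N) 3 := by
  have hle : FD N (Set.Iio x) (isLowerSet_Iio x) ≤ FD N (Set.Iic x) (isLowerSet_Iic x) :=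
    fun f hf y hy => hf y (fun h => hy (le_of_lt h))
  let p : FD N (Set.Iic x) (isLowerSet_Iic x) →ₗ[IA P] N :=
    { toFun := fun f => f.1 x
      map_add' := fun f g => rfl
      map_smul' := by
        intro a f
        show ∑ z, a x z • f.1 z = a • f.1 x
        rw [conc_smul N x hN, Finset.sum_eq_single x]
        · intro z _ hz
          by_cases h : x ≤ z
          · rw [fd_apply_zero N f (show z ∉ Set.Iic x from fun h' => hz (le_antisymm h' h)),
              smul_zero]
          · rw [IncidenceAlgebra.apply_eq_zero_of_not_le h, zero_smul]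
        · intro h
          exact absurd (Finset.mem_univ _) h }
  have := fd_Iic_projective (P := P) (W := N) x
  refine pd_right (Submodule.inclusion hle) p (Submodule.inclusion_injective hle) ?_ ?_ 2 hx ?_
  · intro n
    exact ⟨dl (isLowerSet_Iic x) x le_rfl n, if_pos rfl⟩
  · intro f
    constructor
    · intro hf
      have hf' : f.1 x = 0 := hf
      refine ⟨⟨f.1, fun y hy => ?_⟩, rfl⟩
      by_cases h : y = x
      · rw [h]; exact hf'
      · exact f.2 y (fun h' => hy (lt_of_le_of_ne h' h))
    · rintro ⟨g, rfl⟩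
      exact g.2 x (lt_irrefl x)
  · have := pd_proj (R := IA P) (X := FD N (Set.Iic x) (isLowerSet_Iic x))
    exact hasProjectiveDimensionLT_of_ge _ 1 3 (by norm_num)

open Classical in
theorem pd_union (D D₁ D₂ D₃ : Set P) (hD : IsLowerSet D) (h1 : IsLowerSet D₁)
    (h2 : IsLowerSet D₂) (h3 : IsLowerSet D₃) (hu : D = D₁ ∪ D₂) (hi : D₁ ∩ D₂ = D₃)
    [Module.Projective (IA P) (FD N D₁ h1)] [Module.Projective (IA P) (FD N D₂ h2)]
    [Module.Projective (IA P) (FD N D₃ h3)] :
    HasProjectiveDimensionLT (ModuleCat.of (IA P) (FD N D hD)) 2 := by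
  have l1 : FD N D₁ h1 ≤ FD N D hD := fun f hf y hy => hf y (fun h => hy (hu ▸ Or.inl h))
  have l2 : FD N D₂ h2 ≤ FD N D hD := fun f hf y hy => hf y (fun h => hy (hu ▸ Or.inr h))
  have l31 : FD N D₃ h3 ≤ FD N D₁ h1 := fun f hf y hy => hf y (fun h => hy (by
    rw [← hi] at h; exact h.1))
  have l32 : FD N D₃ h3 ≤ FD N D₂ h2 := fun f hf y hy => hf y (fun h => hy (by
    rw [← hi] at h; exact h.2))
  let i : FD N D₃ h3 →ₗ[IA P] (FD N D₁ h1) × (FD N D₂ h2) :=
    LinearMap.prod (Submodule.inclusion l31) (-(Submodule.inclusion l32))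
  let p : (FD N D₁ h1) × (FD N D₂ h2) →ₗ[IA P] FD N D hD :=
    LinearMap.coprod (Submodule.inclusion l1) (Submodule.inclusion l2)
  refine pd_right i p ?_ ?_ ?_ 1 pd_proj ?_
  · intro f g hfg
    exact Submodule.inclusion_injective l31 (congrArg Prod.fst hfg)
  · intro f
    refine ⟨(⟨fun y => if y ∈ D₁ then f.1 y else 0, fun y hy => if_neg hy⟩,
      ⟨fun y => if y ∈ D₁ then 0 else f.1 y, fun y hy => ?_⟩), ?_⟩
    · show (if y ∈ D₁ then (0 : N) else f.1 y) = 0
      split_ifs with h
      · rfl
      · exact f.2 y (by rw [hu]; rintro (h' | h'); exacts [h h', hy h'])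
    · apply Subtype.ext
      funext y
      show (if y ∈ D₁ then f.1 y else 0) + (if y ∈ D₁ then (0 : N) else f.1 y) = f.1 y
      split_ifs
      · rw [add_zero]
      · rw [zero_add]
  · rintro ⟨f, g⟩
    constructor
    · intro h
      have h' : ∀ y, f.1 y + g.1 y = 0 := fun y => congrFun (congrArg Subtype.val h) y
      refine ⟨⟨f.1, fun y hy => ?_⟩, ?_⟩
      · by_cases hy1 : y ∈ D₁
        · have hy2 : y ∉ D₂ := fun hy2 => hy (by rw [← hi]; exact ⟨hy1, hy2⟩)
          have := h' y
          rw [g.2 y hy2, add_zero] at this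
          exact this
        · exact f.2 y hy1
      · refine Prod.ext rfl (Subtype.ext (funext fun y => ?_))
        show -(f.1 y) = g.1 y
        rw [neg_eq_iff_add_eq_zero]
        exact h' y
    · rintro ⟨k, hk⟩
      rw [← hk]
      apply Subtype.ext
      funext y
      show k.1 y + -(k.1 y) = 0
      rw [add_neg_cancel]
  · have := pd_proj (R := IA P) (X := (FD N D₁ h1) × (FD N D₂ h2))
    exact hasProjectiveDimensionLT_of_ge _ 1 2 (by norm_num)

/-- the condition on the poset -/
def Good (P : Type) [PartialOrder P] : Prop := ∀ x : P, Set.Iio x = ∅ ∨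
  (∃ x', Set.Iio x = Set.Iic x') ∨
    ∃ v c b, Set.Iio x = Set.Iic v ∪ Set.Iic c ∧ Set.Iic v ∩ Set.Iic c = Set.Iic b

theorem pd_Iio (hP : Good P) (x : P) :
    HasProjectiveDimensionLT (ModuleCat.of (IA P) (FD N (Set.Iio x) (isLowerSet_Iio x))) 2 := by
  have key : ∀ (D : Set P) (hD : IsLowerSet D), D = Set.Iio x →
      HasProjectiveDimensionLT (ModuleCat.of (IA P) (FD N D hD)) 2 := by
    intro D hD hDx
    rcases hP x with h | ⟨x', h⟩ | ⟨v, c, b, h, h'⟩
    · have : Subsingleton (FD N D hD) := by
        refine ⟨fun f g => Subtype.ext (funext fun y => ?_)⟩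
        have hy : y ∉ D := by rw [hDx, h]; exact Set.notMem_empty y
        rw [f.2 y hy, g.2 y hy]
      exact pd_sub 2
    · rw [h] at hDx
      subst hDx
      have := fd_Iic_projective (P := P) (W := N) x'
      have := pd_proj (R := IA P) (X := FD N (Set.Iic x') hD)
      exact hasProjectiveDimensionLT_of_ge _ 1 2 (by norm_num)
    · have i1 := fd_Iic_projective (P := P) (W := N) v
      have i2 := fd_Iic_projective (P := P) (W := N) c
      have i3 := fd_Iic_projective (P := P) (W := N) b
      exact pd_union N D (Set.Iic v) (Set.Iic c) (Set.Iic b) hD _ _ _ (hDx.trans h) h'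
  exact key _ _ rfl

end Conc

section Filt

variable {P : Type} [PartialOrder P] [LocallyFiniteOrder P] [DecidableEq P] [Fintype P]
variable (M : Type) [AddCommGroup M] [Module (IA P) M]

/-- the part of `M` supported on a down-set -/
def MD (D : Finset P) (hD : IsLowerSet (D : Set P)) : Submodule (IA P) M where
  carrier := {m | ∀ y, y ∉ D → E y y • m = 0}
  add_mem' {m n} hm hn y hy := by rw [smul_add, hm y hy, hn y hy, add_zero]
  zero_mem' y _ := smul_zero _
  smul_mem' a m hm y hy := by
    have h1 : E y y * a = ∑ z, (E y y * a) * E z z := by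
      rw [← Finset.mul_sum, ← one_eq_sum, mul_one]
    rw [← mul_smul, h1, Finset.sum_smul]
    refine Finset.sum_eq_zero fun z _ => ?_
    by_cases hz : z ∈ D
    · have hyz : ¬ y ≤ z := fun h => hy (hD h hz)
      rw [mul_assoc, mul_E a z z le_rfl, Finset.mul_sum, Finset.sum_smul]
      refine Finset.sum_eq_zero fun w _ => ?_
      rw [mul_smul_comm]
      by_cases hw : w ≤ z
      · rw [mul_E _ _ _ hw]
        by_cases hwy : w = y
        · exact absurd (hwy ▸ hw) hyz
        · rw [Finset.sum_eq_zero, smul_zero, zero_smul]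
          intro u _
          rw [E_apply, if_neg (fun h => hwy h.2.1), zero_smul]
      · rw [IncidenceAlgebra.apply_eq_zero_of_not_le hw, zero_smul, zero_smul]
    · rw [mul_smul, hm z hz, smul_zero]

theorem pd_MD (hP : Good P) (n : ℕ) : ∀ (D : Finset P) (hD : IsLowerSet (D : Set P)), D.card = n →
    HasProjectiveDimensionLT (ModuleCat.of (IA P) (MD M D hD)) 3 := by
  induction n with
  | zero =>
    intro D hD hc
    rw [Finset.card_eq_zero] at hc
    subst hc
    have : Subsingleton (MD M ∅ hD) := by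
      refine ⟨fun a b => Subtype.ext ?_⟩
      have key : ∀ m : MD M ∅ hD, m.1 = 0 := by
        intro m
        rw [← one_smul (IA P) m.1, one_eq_sum, Finset.sum_smul]
        exact Finset.sum_eq_zero fun y _ => m.2 y (Finset.notMem_empty y)
      rw [key a, key b]
    exact pd_sub 3
  | succ n ih =>
    intro D hD hc
    have hne : D.Nonempty := Finset.card_pos.1 (by omega)
    obtain ⟨x, hx⟩ := D.exists_maximal hne
    have hxD : x ∈ D := hx.prop
    have hD' : IsLowerSet ((D.erase x : Finset P) : Set P) := by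
      intro a b hab ha
      rw [Finset.mem_coe, Finset.mem_erase] at ha ⊢
      refine ⟨?_, hD hab ha.2⟩
      rintro rfl
      exact ha.1 (le_antisymm (hx.le_of_ge ha.2 hab) hab)
    have h1 := ih (D.erase x) hD' (by rw [Finset.card_erase_of_mem hxD, hc]; rfl)
    have hle : MD M (D.erase x) hD' ≤ MD M D hD := fun m hm y hy =>
      hm y (fun h => hy (Finset.mem_of_mem_erase h))
    let i := Submodule.inclusion hle
    refine pd_mid i (LinearMap.range i).mkQ (Submodule.inclusion_injective hle)
      (Submodule.mkQ_surjective _) (fun y => by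
        rw [Submodule.mkQ_apply, Submodule.Quotient.mk_eq_zero]
        exact Iff.rfl) 3 h1 ?_
    let N := MD M D hD ⧸ LinearMap.range i
    letI : Module ℚ N := Module.compHom N (algebraMap ℚ (IA P))
    haveI : IsScalarTower ℚ (IA P) N := ⟨fun c a n => by
      show (c • a) • n = (algebraMap ℚ (IA P) c) • (a • n)
      rw [← mul_smul, Algebra.smul_def]⟩
    refine pd_conc N x ?_ (pd_Iio N hP x)
    intro n
    obtain ⟨m, rfl⟩ := Submodule.mkQ_surjective _ n
    rw [← map_smul, ← sub_eq_zero, ← map_sub, Submodule.mkQ_apply, Submodule.Quotient.mk_eq_zero]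
    refine ⟨⟨E x x • m.1 - m.1, fun y hy => ?_⟩, rfl⟩
    rw [smul_sub, ← mul_smul]
    by_cases hyx : y = x
    · rw [hyx, E_mul_E_self, sub_self]
    · rw [E_mul_E_ne x y hyx, zero_smul, m.2 y (fun h => hy (Finset.mem_erase.2 ⟨hyx, h⟩)),
        sub_zero]

theorem pd_all (hP : Good P) (M : ModuleCat.{0} (IA P)) : HasProjectiveDimensionLT M 3 := by
  have hU : IsLowerSet ((Finset.univ : Finset P) : Set P) := by
    rw [Finset.coe_univ]; exact isLowerSet_univ
  have h1 := pd_MD M hP _ Finset.univ hU rfl
  have hT : MD M Finset.univ hU = ⊤ := by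
    rw [eq_top_iff]
    intro m _ y hy
    exact absurd (Finset.mem_univ y) hy
  let e : ModuleCat.of (IA P) (MD M Finset.univ hU) ≅ M :=
    (LinearEquiv.ofTop _ hT).toModuleIso
  exact hasProjectiveDimensionLT_of_iso e 3

theorem gldim_ia_le (hP : Good P) : gldim (ModuleCat.{0} (IA P)) ≤ 2 := by
  refine iSup_le fun M => ?_
  have := (projectiveDimension_le_iff M 2).2 (pd_all hP M)
  exact_mod_cast this

end Filt

end IncCoef
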